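import Pool.Agent.H258R3.DistF

/-!
MP_46bc6f_an, Q2: zero-entropy subshifts with a distortion element in the automorphism group.
-/

set_option autoImplicit false

namespace Pool.Agent.Results.MP_46bc6f_an.ZeroEntropy

open Pool.Agent.H258R3.Dist

/-- For every positive real number delta there are a nonempty two-sided subshift of zero
topological entropy over a finite alphabet, a finite set S of automorphisms of it, and an element
g of S of infinite order whose n-th power has word length O(n ^ delta) with respect to S. -/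
theorem result (δ : ℝ) (hδ : 0 < δ) :
    ∃ (k : ℕ) (X : Set (ℤ → Fin k)), X.Nonempty ∧ IsClosed X ∧
      (∀ x, x ∈ X ↔ (fun i => x (i + 1)) ∈ X) ∧
      Filter.Tendsto (fun n : ℕ => Real.log
        (Set.ncard {w : Fin n → Fin k | ∃ x ∈ X, ∀ i : Fin n, w i = x ((i : ℕ) : ℤ)}) / n)
        Filter.atTop (nhds 0) ∧
      ∃ (S : Finset (Equiv.Perm X)) (g : Equiv.Perm X), g ∈ S ∧
        (∀ h ∈ S, Continuous (h : X → X) ∧ Continuous (h.symm : X → X) ∧
          ∀ x y : X, ((y : ℤ → Fin k) = fun i => (x : ℤ → Fin k) (i + 1)) →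
            ((h y : X) : ℤ → Fin k) = fun i => ((h x : X) : ℤ → Fin k) (i + 1)) ∧
        (∀ n : ℕ, 0 < n → g ^ n ≠ 1) ∧
        ∃ C : ℝ, ∀ n : ℕ, 0 < n →
          ∃ l : List (Equiv.Perm X), (∀ h ∈ l, h ∈ S ∨ h⁻¹ ∈ S) ∧ l.prod = g ^ n ∧
            (l.length : ℝ) ≤ C * (n : ℝ) ^ δ := by
  classical
  obtain ⟨C, hC2, hC⟩ := exists_C
  -- the parameter
  obtain ⟨m, hm⟩ := exists_nat_gt (1 / δ)
  have hm0 : (0 : ℝ) < m := lt_trans (by positivity) hm
  have hm1 : m ≠ 0 := by
    rintro rfl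
    simp at hm0
  generalize hg : C ^ m = gg
  have hK : C ^ m ≤ 512 * (gg + 1) := by omega
  obtain ⟨kk, ⟨e⟩⟩ : ∃ kk, Nonempty (QQ gg ≃ Fin kk) := ⟨_, ⟨Fintype.equivFin _⟩⟩
  let dc : (ℤ → Fin kk) → (ℤ → QQ gg) := fun x i => e.symm (x i)
  let ec : (ℤ → QQ gg) → (ℤ → Fin kk) := fun x i => e (x i)
  have de : ∀ x, dc (ec x) = x := fun x => by funext i; simp [dc, ec]
  have ed : ∀ x, ec (dc x) = x := fun x => by funext i; simp [dc, ec]
  let XX : Set (ℤ → Fin kk) := {x | dc x ∈ X2 gg}
  have hmem : ∀ x : XX, dc x.1 ∈ X2 gg := fun x => x.2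
  -- the generators
  have hXact : ∀ s, ∀ x ∈ X2 gg, act2 gg s x ∈ X2 gg := fun s x hx => X2_FW gg hx [s]
  let fn : Gen → XX → XX := fun s x => ⟨ec (act2 gg s (dc x.1)), by
    show dc (ec (act2 gg s (dc x.1))) ∈ X2 gg
    rw [de]; exact hXact s _ (hmem x)⟩
  have fn_inv : ∀ s x, fn s (fn s x) = x := by
    intro s x
    apply Subtype.ext
    show ec (act2 gg s (dc (ec (act2 gg s (dc x.1))))) = x.1
    rw [de, X2_inv gg s (hmem x), ed]
  let ρ : Gen → Equiv.Perm XX := fun s => ⟨fn s, fn s, fn_inv s, fn_inv s⟩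
  have ρ_val : ∀ s (x : XX), ((ρ s x : XX) : ℤ → Fin kk) =
      ec (act2 gg s (dc x.1)) := fun s x => rfl
  have ρ_symm : ∀ s, (ρ s).symm = ρ s := fun s => rfl
  have prod_val : ∀ (w : List Gen) (x : XX),
      (((w.map ρ).prod x : XX) : ℤ → Fin kk) = ec (FW2 gg w (dc x.1)) := by
    intro w
    induction w with
    | nil => intro x; exact (ed x.1).symm
    | cons s w ih =>
      intro x
      rw [List.map_cons, List.prod_cons, Equiv.Perm.mul_apply, ρ_val, ih, de, FW2_cons]
  have prod_ext : ∀ w w' : List Gen, (∀ y : List (DD gg), actW gg w y = actW gg w' y) →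
      (w.map ρ).prod = (w'.map ρ).prod := by
    intro w w' h
    ext1 x
    apply Subtype.ext
    rw [prod_val, prod_val, X2_ext gg h (hmem x)]
  have cont : ∀ s, Continuous (ρ s : XX → XX) := by
    intro s
    apply Continuous.subtype_mk
    apply continuous_pi
    intro i
    have : (fun x : XX => ec (act2 gg s (dc x.1)) i) =
        (fun t : Fin kk × Fin kk =>
          e ((sys gg).loc s (e.symm t.1) (e.symm t.2))) ∘
        (fun x : XX => (x.1 i, x.1 (i + 1))) := by
      funext x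
      rfl
    show Continuous (fun x : XX => ec (act2 gg s (dc x.1)) i)
    rw [this]
    exact continuous_of_discreteTopology.comp
      (((continuous_apply i).comp continuous_subtype_val).prodMk
        ((continuous_apply (i + 1)).comp continuous_subtype_val))
  have comm : ∀ s, ∀ x y : XX, ((y : ℤ → Fin kk) =
      fun n => (x : ℤ → Fin kk) (n + 1)) →
        ((ρ s y : XX) : ℤ → Fin kk) =
          fun n => ((ρ s x : XX) : ℤ → Fin kk) (n + 1) := by
    intro s x y hxy
    rw [ρ_val, ρ_val, hxy]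
    rfl
  let tt : Equiv.Perm XX := ρ 0 * ρ 1
  have tt_pow : ∀ n, tt ^ n = (((List.replicate n ([0, 1] : List Gen)).flatten).map ρ).prod := by
    intro n
    induction n with
    | zero => rfl
    | succ n ih =>
      rw [List.replicate_succ, List.flatten_cons, List.map_append, List.prod_append, ← ih,
        pow_succ']
      simp [tt]
  have act_rep : ∀ n (y : List (DD gg)),
      actW gg ((List.replicate n ([0, 1] : List Gen)).flatten) y = (tau gg)^[n] y := by
    intro n
    induction n with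
    | zero => intro y; rfl
    | succ n ih =>
      intro y
      rw [List.replicate_succ, List.flatten_cons, actW_append, ih, Function.iterate_succ_apply']
      rfl
  refine ⟨kk, XX, ?_, ?_, ?_, ?_, insert tt (Finset.univ.image ρ), tt,
    Finset.mem_insert_self _ _, ?_, ?_, ?_⟩
  · -- nonempty
    refine ⟨ec (S2 gg []), ?_⟩
    show dc (ec (S2 gg [])) ∈ X2 gg
    rw [de]
    exact S2_mem gg []
  · -- closed
    rw [← closure_subset_iff_isClosed]
    intro x hx
    show dc x ∈ X2 gg
    intro a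
    apply X_closed
    intro m
    have hopen : IsOpen {y : ℤ → Fin kk | ∀ i ∈ Finset.range m, y (a + i) = x (a + i)} := by
      have : {y : ℤ → Fin kk | ∀ i ∈ Finset.range m, y (a + i) = x (a + i)} =
          ⋂ i ∈ Finset.range m, (fun y : ℤ → Fin kk => y (a + i)) ⁻¹' {x (a + i)} := by
        ext y; simp
      rw [this]
      apply isOpen_biInter_finset
      intro i _
      have hc : Continuous (fun y : ℤ → Fin kk => y (a + (i : ℤ))) := continuous_apply (a + (i : ℤ))
      exact (isOpen_discrete {x (a + i)}).preimage hc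
    obtain ⟨y, hy, hyX⟩ := mem_closure_iff.1 hx _ hopen (fun i _ => rfl)
    exact ⟨res gg a (dc y), hyX a, fun i hi => congrArg e.symm (hy i (Finset.mem_range.2 hi))⟩
  · -- shift
    intro x
    exact X2_shift gg
  · -- entropy
    refine entropy_zero _ (Nat.card (QQ gg) ^ 5 + 2 * (512 * (gg + 1)) + 2) (by omega) ?_
    intro L
    refine le_trans ?_ (WW_sqrt gg L)
    have hinj : Function.Injective (fun (w : Fin L → Fin kk) (i : Fin L) => e.symm (w i)) := by
      intro w w' h
      funext i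
      exact e.symm.injective (congrFun h i)
    rw [← Set.ncard_image_of_injective _ hinj]
    apply Set.ncard_le_ncard _ (WW_fin gg L)
    rintro _ ⟨w, ⟨x, hx, hw⟩, rfl⟩
    have hx0 : res gg 0 (dc x) ∈ X gg := hx 0
    obtain ⟨y, j, hyj⟩ := hx0 L
    refine ⟨y, j, fun i => ?_⟩
    have h1 := hyj i i.isLt
    simp only [res, dc, zero_add] at h1
    show e.symm (w i) = _
    rw [hw i, h1]
  · intro h hh
    rw [Finset.mem_insert, Finset.mem_image] at hh
    rcases hh with rfl | ⟨s, _, rfl⟩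
    · refine ⟨(cont 0).comp (cont 1), (cont 1).comp (cont 0), ?_⟩
      intro x y hxy
      exact comm 0 (ρ 1 x) (ρ 1 y) (comm 1 x y hxy)
    · exact ⟨cont s, cont s, comm s⟩
  · intro n hn0 hn
    obtain ⟨y, hy⟩ := tau_inf gg n (by omega)
    apply hy
    have hx : dc (ec (S2 gg y)) ∈ X2 gg := by rw [de]; exact S2_mem gg y
    have h1 : (((tt ^ n) ⟨ec (S2 gg y), hx⟩ : XX) : ℤ → Fin kk) =
        ec (S2 gg y) := by
      rw [hn]; rfl
    rw [tt_pow, prod_val, de, FW2_S2, act_rep] at h1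
    have h2 : S2 gg ((tau gg)^[n] y) = S2 gg y := by
      have := congrArg dc h1
      rwa [de, de] at this
    apply S2_inj gg _ h2
    rw [← act_rep, actW_length]
  · refine ⟨2 * ((512 * (gg + 1) : ℕ) : ℝ) * ((512 * (gg + 1) : ℕ) : ℝ) ^ δ, fun n hn => ?_⟩
    have hKone : 1 < 512 * (gg + 1) := by omega
    obtain ⟨w, hw1, hw2⟩ := short_words gg C hC2 hC (Nat.log (512 * (gg + 1)) n + 1) n
      (Nat.lt_pow_succ_log_self hKone n)
    refine ⟨w.map ρ, ?_, ?_, ?_⟩
    · intro h hh
      left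
      obtain ⟨s, _, rfl⟩ := List.mem_map.1 hh
      exact Finset.mem_insert_of_mem (Finset.mem_image_of_mem _ (Finset.mem_univ s))
    · rw [tt_pow]
      apply prod_ext
      intro y
      rw [hw1, act_rep]
    · rw [List.length_map]
      have h1 : (512 * (gg + 1)) ^ (Nat.log (512 * (gg + 1)) n) ≤ n :=
        Nat.pow_log_le_self _ (by omega)
      have h2 : (C ^ (Nat.log (512 * (gg + 1)) n + 1)) ^ m ≤ (512 * (gg + 1)) * n := by
        calc (C ^ (Nat.log (512 * (gg + 1)) n + 1)) ^ m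
            = (C ^ m) ^ (Nat.log (512 * (gg + 1)) n + 1) := by rw [← pow_mul, ← pow_mul, mul_comm]
          _ ≤ (512 * (gg + 1)) ^ (Nat.log (512 * (gg + 1)) n + 1) := Nat.pow_le_pow_left hK _
          _ = (512 * (gg + 1)) * (512 * (gg + 1)) ^ (Nat.log (512 * (gg + 1)) n) := pow_succ' _ _
          _ ≤ (512 * (gg + 1)) * n := Nat.mul_le_mul_left _ h1
      have h3 : (w.length : ℝ) ≤ 2 * ((512 * (gg + 1) : ℕ) : ℝ) *
          (C : ℝ) ^ (Nat.log (512 * (gg + 1)) n + 1) := by exact_mod_cast hw2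
      have h4 : ((C : ℝ) ^ (Nat.log (512 * (gg + 1)) n + 1)) ^ m ≤
          ((512 * (gg + 1) : ℕ) : ℝ) * n := by exact_mod_cast h2
      have hKK : (1 : ℝ) ≤ ((512 * (gg + 1) : ℕ) : ℝ) := by
        exact_mod_cast (by omega : 1 ≤ 512 * (gg + 1))
      generalize hKr : ((512 * (gg + 1) : ℕ) : ℝ) = K at h3 h4 hKK
      generalize hCr : (C : ℝ) ^ (Nat.log (512 * (gg + 1)) n + 1) = c at h3 h4
      have hc0 : (0 : ℝ) ≤ c := by rw [← hCr]; positivity
      have h9 : (1 : ℝ) ≤ n := by exact_mod_cast hn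
      have h10 : c ≤ (K * n) ^ δ := by
        have h11 : (1 : ℝ) ≤ K * n := by nlinarith
        have h12 : c = (c ^ m) ^ ((m : ℝ)⁻¹) := (Real.pow_rpow_inv_natCast hc0 hm1).symm
        have h13 : (m : ℝ)⁻¹ ≤ δ := by
          rw [inv_le_comm₀ hm0 hδ, inv_eq_one_div]
          exact hm.le
        rw [h12]
        calc (c ^ m) ^ ((m : ℝ)⁻¹) ≤ (K * n) ^ ((m : ℝ)⁻¹) :=
              Real.rpow_le_rpow (by positivity) h4 (by positivity)
          _ ≤ (K * n) ^ δ := Real.rpow_le_rpow_of_exponent_le h11 h13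
      rw [Real.mul_rpow (by linarith) (by linarith)] at h10
      calc (w.length : ℝ) ≤ 2 * K * c := h3
        _ ≤ 2 * K * (K ^ δ * (n : ℝ) ^ δ) := mul_le_mul_of_nonneg_left h10 (by positivity)
        _ = 2 * K * K ^ δ * (n : ℝ) ^ δ := by ring

end Pool.Agent.Results.MP_46bc6f_an.ZeroEntropy
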